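import Pool.Agent.Helper58.LC.Goals

/-!
# Project LC, goal DEC
-/

set_option autoImplicit false

open Classical

namespace Pool.Agent.Helper24.LC.DEC

open Pool.Agent.Helper58.LC
open Finset

/-- The comparison rule. -/
def blw {B : ℕ} (e : Fin 3 × Fin (B + 1)) (m : Fin (B + 1)) : Prop :=
  (e.1 = 1 ∧ e.2 ≤ m) ∨ (e.1 = 2 ∧ ¬ e.2 ≤ m)

/-- The set of positions coded by a table. -/
noncomputable def TS {B H : ℕ} (T : Fin H → Option (Fin B)) : Finset ℕ :=
  Finset.image (fun b : Fin B => (b : ℕ)) (univ.filter (fun b : Fin B => ∃ j, T j = some b))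

/-- The decoding rule. -/
def rule (F : Bool → Finset ℕ → ℕ → Bool) {B S H Z : ℕ} (P : LabP B S H) (L : LabL B S Z) :
    Prop :=
  blw (L.1 P.1.1) P.2.1 ∧ (((L.1 P.1.2.1).1 = 0 ∨ blw (L.1 P.1.2.1) P.2.1) ∨
    ∃ z idx, L.2 z = some (P.1, idx) ∧ F P.2.2.1 (TS P.2.2.2) (idx : ℕ) = true)

/-- The rank of an abscissa. -/
noncomputable def rk {I J : Type} [Fintype I] (c : Cfg I J) (B : ℕ) (t : ℝ) : Fin (B + 1) :=
  ⟨min (univ.filter (fun k => c.x k < t)).card B, by omega⟩

/-- The entry of the line `l` for the line `r`. -/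
noncomputable def en {I J : Type} [Fintype I] (c : Cfg I J) (B : ℕ) (l r : J) :
    Fin 3 × Fin (B + 1) :=
  (if r = l then 0 else if c.α l < c.α r then 1 else 2, rk c B (c.X l r))

theorem rk_le {I J : Type} [Fintype I] (h7 : RNK) (c : Cfg I J) (B : ℕ)
    (hB : Fintype.card I ≤ B) (i : I) (t : ℝ) (ht : t ≠ c.x i) :
    rk c B t ≤ rk c B (c.x i) ↔ t < c.x i := by
  have e1 : ∀ s : ℝ, (univ.filter (fun k => c.x k < s)).card ≤ B := fun s =>
    le_trans (Finset.card_le_univ _) hB
  have h := h7 I c.x i t ht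
  rw [h, Fin.le_def]
  simp only [rk]
  rw [min_eq_left (e1 t), min_eq_left (e1 (c.x i))]

theorem blw_en {I J : Type} [Fintype I] (h7 : RNK) (h8 : CMP) (c : Cfg I J) (B : ℕ)
    (hB : Fintype.card I ≤ B) (i : I) (l r : J) :
    blw (en c B l r) (rk c B (c.x i)) ↔ c.ln l (c.x i) < c.ln r (c.x i) := by
  by_cases hrl : r = l
  · subst hrl
    constructor
    · rintro (⟨h, _⟩ | ⟨h, _⟩)
      · simp [en] at h
      · simp [en] at h
    · intro h
      exact absurd h (lt_irrefl _)
  · have hlr : l ≠ r := fun h => hrl h.symm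
    obtain ⟨k1, k2, _⟩ := h8 I J c (c.x i) l r hlr
    have hne : c.X l r ≠ c.x i := by
      intro h
      exact c.gp i l r hlr (k2.2 h.symm)
    have hr := rk_le h7 c B hB i (c.X l r) hne
    by_cases hs : c.α l < c.α r
    · have e1 : (en c B l r).1 = 1 := by simp [en, hrl, hs]
      have e2 : (en c B l r).2 = rk c B (c.X l r) := rfl
      unfold blw
      rw [e1, e2, k1]
      constructor
      · rintro (⟨_, h⟩ | ⟨h, _⟩)
        · exact Or.inl ⟨hs, hr.1 h⟩
        · exact absurd h (by decide)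
      · rintro (⟨_, h⟩ | ⟨h, _⟩)
        · exact Or.inl ⟨rfl, hr.2 h⟩
        · exact absurd h (not_lt.2 hs.le)
    · have hs' : c.α r < c.α l :=
        lt_of_le_of_ne (not_lt.1 hs) (fun h => hrl (c.slope r l h))
      have e1 : (en c B l r).1 = 2 := by simp [en, hrl, hs]
      have e2 : (en c B l r).2 = rk c B (c.X l r) := rfl
      unfold blw
      rw [e1, e2, k1]
      constructor
      · rintro (⟨h, _⟩ | ⟨_, h⟩)
        · exact absurd h (by decide)
        · refine Or.inr ⟨hs', ?_⟩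
          exact lt_of_le_of_ne (not_lt.1 (fun h' => h (hr.2 h'))) (fun h' => hne h'.symm)
      · rintro (⟨h, _⟩ | ⟨_, h⟩)
        · exact absurd h hs
        · exact Or.inr ⟨rfl, fun h' => absurd (hr.1 h') (not_lt.2 h.le)⟩

theorem en_zero {I J : Type} [Fintype I] (c : Cfg I J) (B : ℕ) (l r : J) :
    (en c B l r).1 = 0 ↔ r = l := by
  constructor
  · intro h
    by_contra hne
    by_cases hs : c.α l < c.α r
    · simp [en, hne, hs] at h
    · simp [en, hne, hs] at h
  · intro h
    simp [en, h]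

theorem TS_eq {B H : ℕ} (T : Fin H → Option (Fin B)) (T0 : Finset ℕ) (hT0 : ∀ t ∈ T0, t < B)
    (h : ∀ x : Fin B, x ∈ univ.filter (fun b : Fin B => (b : ℕ) ∈ T0) ↔ ∃ k, T k = some x) :
    TS T = T0 := by
  ext t
  unfold TS
  simp only [mem_image, mem_filter, mem_univ, true_and]
  constructor
  · rintro ⟨b, hb, rfl⟩
    have := (h b).2 hb
    simpa using this
  · intro ht
    refine ⟨⟨t, hT0 t ht⟩, ?_, rfl⟩
    apply (h _).1
    simpa using ht

theorem t (h1 : SMP) (h2 : NBX) (h3 : ZONE) (h4 : WO) (h5 : REP) (h6 : CHG) (h7 : RNK)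
    (h8 : CMP) : DEC := by
  obtain ⟨F, hF⟩ := h6
  intro B q a hq ha hBq hBa
  refine ⟨rule F, ?_⟩
  intro I J _ _ c hI hJ
  have hJ0 : 0 < Fintype.card J := Fintype.card_pos_iff.2 ⟨c.ju⟩
  have hB1 : 1 ≤ B := by omega
  obtain ⟨R, hR, hju, hjd, hR2⟩ := h1 I J c a q ha hq (by
    calc Fintype.card J ^ 2 * Fintype.card I ^ 2 ≤ B ^ 2 * B ^ 2 :=
          Nat.mul_le_mul (Nat.pow_le_pow_left hJ 2) (Nat.pow_le_pow_left hI 2)
      _ = B ^ 4 := by ring
      _ ≤ 2 ^ q := hBq)
  obtain ⟨h⟩ := h2 I J c R hju hjd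
  obtain ⟨D, hD1, hD2⟩ := hR2 h
  have hDB : ∀ κ, (D κ).card ≤ B := by
    intro κ
    calc (D κ).card = 1 * (D κ).card := by ring
      _ ≤ a * (D κ).card := Nat.mul_le_mul_right _ ha
      _ ≤ Fintype.card J := hD1 κ
      _ ≤ B := hJ
  have hDa : ∀ κ, (D κ).card ≤ a ^ 2 := by
    intro κ
    have : a * (D κ).card ≤ a * a ^ 2 := by
      calc a * (D κ).card ≤ Fintype.card J := hD1 κ
        _ ≤ B := hJ
        _ ≤ a ^ 3 := hBa
        _ = a * a ^ 2 := by ring
    exact Nat.le_of_mul_le_mul_left this ha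
  have hB2 : B ^ 2 ≤ 2 ^ q := le_trans (Nat.pow_le_pow_right hB1 (by norm_num)) hBq
  have hB1' : B ≤ 2 ^ q := by
    calc B = B ^ 1 := by ring
      _ ≤ B ^ 4 := Nat.pow_le_pow_right hB1 (by norm_num)
      _ ≤ 2 ^ q := hBq
  have hL := fun κ => h4 I J c.x c.y c.α c.β (D κ) a q ha hq (le_trans hI hB1')
    (le_trans (Nat.pow_le_pow_left (hDB κ) 2) hB2) (hDa κ)
  choose L hLn hLt hLc using hL
  have hLlen : ∀ κ, (L κ).length ≤ B := by
    intro κ
    rw [← List.toFinset_card_of_nodup (hLn κ), hLt κ]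
    exact hDB κ
  -- the enumeration of `R`
  obtain ⟨ix, hix⟩ : ∃ ix : J → Fin (a * q + 2), ∀ r ∈ R, ∀ s ∈ R, ix r = ix s → r = s := by
    have hc : Fintype.card R ≤ Fintype.card (Fin (a * q + 2)) := by
      rw [Fintype.card_coe, Fintype.card_fin]
      exact hR
    obtain ⟨e⟩ := Function.Embedding.nonempty_of_card_le hc
    refine ⟨fun r => if hr : r ∈ R then e ⟨r, hr⟩ else ⟨0, by omega⟩, ?_⟩
    intro r hr s hs hrs
    simp only [hr, hs, dif_pos] at hrs
    have := e.injective hrs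
    exact congrArg Subtype.val this
  obtain ⟨ρ, hρ⟩ : ∃ ρ : Fin (a * q + 2) → J, ∀ r ∈ R, ρ (ix r) = r := by
    refine ⟨fun k => if hk : ∃ r ∈ R, ix r = k then hk.choose else c.ju, ?_⟩
    intro r hr
    have hk : ∃ s ∈ R, ix s = ix r := ⟨r, hr, rfl⟩
    simp only [hk, dif_pos]
    exact hix _ hk.choose_spec.1 _ hr hk.choose_spec.2
  -- codes of keys
  let code : J × J × ℕ → Key (a * q + 2) := fun κ =>
    (ix κ.1, ix κ.2.1, ⟨min κ.2.2 (2 * (a * q + 2)), by omega⟩)
  let idx : J → J × J × ℕ → Fin (B + 1) := fun l κ =>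
    ⟨min (List.idxOf l (L κ)) B, by omega⟩
  have hcnt : ∀ i, (h.key i).2.2 ≤ 2 * (a * q + 2) := by
    intro i
    have e1 : c.cnt R (h.a i) (c.x i) ≤ R.card := Finset.card_filter_le _ _
    have e2 : c.cnt R (h.b i) (c.x i) ≤ R.card := Finset.card_filter_le _ _
    have e3 : (h.key i).2.2 = c.cnt R (h.a i) (c.x i) + c.cnt R (h.b i) (c.x i) := rfl
    omega
  have hcode : ∀ i k, code (h.key i) = code (h.key k) → h.key i = h.key k := by
    intro i k hik
    have e1 : ix (h.a i) = ix (h.a k) := congrArg (fun z => z.1) hik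
    have e2 : ix (h.b i) = ix (h.b k) := congrArg (fun z => z.2.1) hik
    have e3 : min (h.key i).2.2 (2 * (a * q + 2)) = min (h.key k).2.2 (2 * (a * q + 2)) :=
      congrArg (fun z => (z.2.2 : ℕ)) hik
    have f1 := hix _ (h.nb i).1 _ (h.nb k).1 e1
    have f2 := hix _ (h.nb i).2.1 _ (h.nb k).2.1 e2
    have g1 := hcnt i
    have g2 := hcnt k
    have f3 : (h.key i).2.2 = (h.key k).2.2 := by omega
    exact Prod.ext f1 (Prod.ext f2 f3)
  -- the tables of the lines
  have hZ : ∀ l : J, ∃ g : Fin (9 * (a * q + 3)) → Option (Key (a * q + 2) × Fin (B + 1)),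
      ∀ z, z ∈ ((univ.filter (fun i => h.und i l)).image h.key).image
        (fun κ => (code κ, idx l κ)) ↔ ∃ k, g k = some z := by
    intro l
    apply h5
    refine le_trans Finset.card_image_le (le_trans (h3 I J c R h l) ?_)
    have : R.card + 1 ≤ a * q + 3 := by omega
    exact Nat.mul_le_mul_left 9 this
  choose G hG using hZ
  -- the tables of the points
  have hP : ∀ i : I, ∃ (v : Bool) (T : Fin (36 * q * a) → Option (Fin B)),
      ∀ (k : ℕ) (hk : k < (L (h.key i)).length),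
        decide (c.α ((L (h.key i)).get ⟨k, hk⟩) * c.x i + c.β ((L (h.key i)).get ⟨k, hk⟩) < c.y i)
          = F v (TS T) k := by
    intro i
    obtain ⟨v, T0, hT1, hT2, hT3⟩ := hF J (L (h.key i))
      (fun j => decide (c.α j * c.x i + c.β j < c.y i))
    have hT2' : ∀ t ∈ T0, t < B := fun t ht => lt_of_lt_of_le (hT2 t ht) (hLlen _)
    have hcard : (univ.filter (fun b : Fin B => (b : ℕ) ∈ T0)).card ≤ 36 * q * a := by
      refine le_trans ?_ (le_trans hT1 (hLc (h.key i) i))
      refine Finset.card_le_card_of_injOn (fun b : Fin B => (b : ℕ)) ?_ ?_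
      · intro b hb
        simpa using hb
      · intro b _ b' _ hbb
        exact Fin.ext hbb
    obtain ⟨T, hT⟩ := h5 (Fin B) (univ.filter (fun b : Fin B => (b : ℕ) ∈ T0)) (36 * q * a) hcard
    refine ⟨v, T, ?_⟩
    rw [TS_eq T T0 hT2' hT]
    exact hT3
  choose v T hvT using hP
  refine ⟨fun i => (code (h.key i), rk c B (c.x i), v i, T i),
    fun l => (fun k => en c B l (ρ k), G l), ?_⟩
  intro i l
  have ha' := blw_en h7 h8 c B hI i l (h.a i)
  have hb' := blw_en h7 h8 c B hI i l (h.b i)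
  have hz := en_zero c B l (h.b i)
  have hnb := h.nb i
  have ra : ρ (ix (h.a i)) = h.a i := hρ _ hnb.1
  have rb : ρ (ix (h.b i)) = h.b i := hρ _ hnb.2.1
  have hup : c.y i < c.ln (h.a i) (c.x i) := hnb.2.2.1
  have hdn : c.ln (h.b i) (c.x i) < c.y i := hnb.2.2.2.1
  have hbl : ((en c B l (h.b i)).1 = 0 ∨ blw (en c B l (h.b i)) (rk c B (c.x i))) ↔
      ¬ (c.ln (h.b i) (c.x i) < c.ln l (c.x i)) := by
    rw [hz, hb']
    constructor
    · rintro (e | e)
      · rw [e]
        exact lt_irrefl _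
      · exact not_lt.2 e.le
    · intro e
      by_cases hbl : h.b i = l
      · exact Or.inl hbl
      · right
        refine lt_of_le_of_ne (not_lt.1 e) ?_
        exact c.gp i l (h.b i) (fun h' => hbl h'.symm)
  have hrule : rule F (B := B) (S := a * q + 2) (H := 36 * q * a) (Z := 9 * (a * q + 3))
      (code (h.key i), rk c B (c.x i), v i, T i) (fun k => en c B l (ρ k), G l) ↔
      (c.ln l (c.x i) < c.ln (h.a i) (c.x i) ∧ (¬ (c.ln (h.b i) (c.x i) < c.ln l (c.x i)) ∨
        ∃ z id, G l z = some (code (h.key i), id) ∧ F (v i) (TS (T i)) (id : ℕ) = true)) := by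
    have e1 : rule F (B := B) (S := a * q + 2) (H := 36 * q * a) (Z := 9 * (a * q + 3))
      (code (h.key i), rk c B (c.x i), v i, T i) (fun k => en c B l (ρ k), G l) ↔
      (blw (en c B l (ρ (ix (h.a i)))) (rk c B (c.x i)) ∧
        (((en c B l (ρ (ix (h.b i)))).1 = 0 ∨ blw (en c B l (ρ (ix (h.b i)))) (rk c B (c.x i))) ∨
        ∃ z id, G l z = some (code (h.key i), id) ∧ F (v i) (TS (T i)) (id : ℕ) = true)) :=
      Iff.rfl
    rw [e1, ra, rb, ha', hbl]
  rw [hrule]
  by_cases hc1 : c.ln l (c.x i) < c.ln (h.a i) (c.x i)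
  · by_cases hc2 : c.ln (h.b i) (c.x i) < c.ln l (c.x i)
    · -- undecided
      have hund : h.und i l := ⟨hc2, hc1⟩
      have hlL : l ∈ L (h.key i) := by
        rw [← List.mem_toFinset, hLt]
        exact hD2 i l hund
      have hidx : List.idxOf l (L (h.key i)) < (L (h.key i)).length :=
        List.idxOf_lt_length_of_mem hlL
      have hget : (L (h.key i)).get ⟨List.idxOf l (L (h.key i)), hidx⟩ = l :=
        List.idxOf_get hidx
      have hv := hvT i _ hidx
      rw [hget] at hv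
      have hid : (idx l (h.key i) : ℕ) = List.idxOf l (L (h.key i)) := by
        have : (idx l (h.key i) : ℕ) = min (List.idxOf l (L (h.key i))) B := rfl
        rw [this]
        exact min_eq_left (le_trans hidx.le (hLlen _))
      have hU : c.U i l ↔ F (v i) (TS (T i)) (idx l (h.key i) : ℕ) = true := by
        rw [hid, ← hv, decide_eq_true_iff]
        rfl
      rw [hU]
      constructor
      · rintro ⟨_, e | ⟨z, id, e1, e2⟩⟩
        · exact absurd hc2 e
        · have hm := (hG l (code (h.key i), id)).2 ⟨z, e1⟩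
          rw [Finset.mem_image] at hm
          obtain ⟨κ, hκ, hκ2⟩ := hm
          rw [Finset.mem_image] at hκ
          obtain ⟨k, _, rfl⟩ := hκ
          have f1 : code (h.key k) = code (h.key i) := congrArg Prod.fst hκ2
          have f2 : idx l (h.key k) = id := congrArg Prod.snd hκ2
          have f3 := hcode k i f1
          rw [f3] at f2
          rw [f2]
          exact e2
      · intro e
        refine ⟨hc1, Or.inr ?_⟩
        have hm : (code (h.key i), idx l (h.key i)) ∈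
            ((univ.filter (fun i => h.und i l)).image h.key).image
              (fun κ => (code κ, idx l κ)) := by
          refine Finset.mem_image.2 ⟨h.key i, Finset.mem_image.2 ⟨i, ?_, rfl⟩, rfl⟩
          exact Finset.mem_filter.2 ⟨Finset.mem_univ _, hund⟩
        obtain ⟨z, hz⟩ := (hG l _).1 hm
        exact ⟨z, _, hz, e⟩
    · have hU : c.U i l := lt_of_le_of_lt (not_lt.1 hc2) hdn
      exact ⟨fun _ => hU, fun _ => ⟨hc1, Or.inl hc2⟩⟩
  · have hU : ¬ c.U i l := fun e => hc1 (lt_trans e hup)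
    exact ⟨fun e => absurd e.1 hc1, fun e => absurd e hU⟩

end Pool.Agent.Helper24.LC.DEC
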